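import Pool.Agent.X155.ParaEN

/-! MP_960512_al, Q1: the negated form holds. -/

namespace Pool.Agent.Results.MP_960512_al.ParabolaDihedral

/-- `H` is (finite exponent)-by-nilpotent: it has a normal subgroup `K` of finite exponent with
`H / K` nilpotent. -/
def IsFinExpByNilpotent (H : Type) [Group H] : Prop :=
  ∃ (K : Subgroup H) (_ : K.Normal), (∃ e : ℕ, 0 < e ∧ ∀ k ∈ K, k ^ e = 1) ∧
    Group.IsNilpotent (H ⧸ K)

/-- The class `(EN, ∞)*`: every infinite subset contains distinct `x, y` such that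
`⟨x, y⁻¹ x y⟩` is (finite exponent)-by-nilpotent. -/
def InStarClass (G : Type) [Group G] : Prop :=
  ∀ S : Set G, S.Infinite → ∃ x ∈ S, ∃ y ∈ S, x ≠ y ∧
    IsFinExpByNilpotent (Subgroup.closure {x, y⁻¹ * x * y} : Subgroup G)

/-- There is a finitely generated soluble group in `(EN, ∞)*` which is not in `EN`; in fact all
subgroups `⟨x, x ^ y⟩` of it are in `EN`. -/
theorem result : ∃ (G : Type) (_ : Group G), Group.FG G ∧ Group.IsSolvable G ∧
    (∀ x y : G, IsFinExpByNilpotent (Subgroup.closure {x, y⁻¹ * x * y} : Subgroup G)) ∧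
    InStarClass G ∧ ¬ IsFinExpByNilpotent G := by
  have hall : ∀ x y : Pool.Agent.X155.ParaDih.Amb.G,
      IsFinExpByNilpotent (Subgroup.closure {x, y⁻¹ * x * y} :
        Subgroup Pool.Agent.X155.ParaDih.Amb.G) := by
    intro x y
    refine Pool.Agent.X155.ParaDih.Amb.en_closure x (y⁻¹ * x * y) ?_
    change x.1.k = (y.1⁻¹ * x.1 * y.1).k
    rw [Pool.Agent.X155.ParaDih.Amb.mul_k, Pool.Agent.X155.ParaDih.Amb.mul_k,
      Pool.Agent.X155.ParaDih.Amb.inv_k]
    abel
  refine ⟨Pool.Agent.X155.ParaDih.Amb.G, inferInstance, ?_, inferInstance, hall, ?_,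
    Pool.Agent.X155.ParaDih.Amb.not_en⟩
  · rw [Group.fg_iff_subgroup_fg, Subgroup.fg_iff]
    exact ⟨{Pool.Agent.X155.ParaDih.Amb.T (1, 0), Pool.Agent.X155.ParaDih.Amb.T (0, 1),
      Pool.Agent.X155.ParaDih.Amb.a}, rfl, Set.toFinite _⟩
  · intro S hS
    obtain ⟨x, hx, y, hy, hxy⟩ := hS.nontrivial
    exact ⟨x, hx, y, hy, hxy, hall x y⟩

end Pool.Agent.Results.MP_960512_al.ParabolaDihedral
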